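import Pool.Agent.Q7.CJ.Stm

/-!
# Project CJ (helper7), job MV: moving, and the class of an ideal
-/

set_option autoImplicit false

namespace Pool.Agent.Q123.CJ

open Pool.Agent.Q7.CJ

section

variable {R : Type} [CommRing R] [IsDedekindDomain R]

/-- every class contains an ideal prime to two maximal ideals -/
theorem move {P Q : Ideal R} (hP : P.IsMaximal) (hQ : Q.IsMaximal) (hP0 : P ≠ ⊥) (hQ0 : Q ≠ ⊥) {I : Ideal R}
    (hI : I ≠ ⊥) : ∃ (J : Ideal R) (a b : R), J ≠ ⊥ ∧ a ≠ 0 ∧ b ≠ 0 ∧ Ideal.span {a} * I = Ideal.span {b} * J ∧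
      ¬ J ≤ P ∧ ¬ J ≤ Q := by
  obtain ⟨a, haI, ha0⟩ := Submodule.exists_mem_ne_zero_of_ne_bot hI
  obtain ⟨I', hI'⟩ := Ideal.dvd_iff_le.2 ((Ideal.span_singleton_le_iff_mem (I := I)).2 haI)
  have hsa : Ideal.span {a} ≠ (⊥ : Ideal R) := by
    rw [Ne, Ideal.span_singleton_eq_bot]
    exact ha0
  have hI'0 : I' ≠ ⊥ := by
    rintro rfl
    rw [Ideal.mul_bot] at hI'
    exact hsa hI'
  have hne : I' * (P * Q) ≠ 0 := by
    rw [Ne, mul_eq_zero, mul_eq_zero]
    push Not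
    exact ⟨hI'0, hP0, hQ0⟩
  obtain ⟨b, hb⟩ := IsDedekindDomain.exists_sup_span_eq (Ideal.mul_le_left (I := I') (J := P * Q)) hne
  have hbI : Ideal.span {b} ≤ I' := by
    rw [← hb]
    exact le_sup_right
  obtain ⟨J, hJ⟩ := Ideal.dvd_iff_le.2 hbI
  have htop : P * Q ⊔ J = ⊤ := by
    have h1 : I' * (P * Q ⊔ J) = I' * ⊤ := by
      rw [Ideal.mul_sup, ← hJ, Ideal.mul_top]
      exact hb
    exact mul_left_cancel₀ hI'0 h1
  have hJP : ¬ J ≤ P := by
    intro h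
    refine hP.ne_top (top_le_iff.1 ?_)
    rw [← htop]
    exact sup_le Ideal.mul_le_left h
  have hJQ : ¬ J ≤ Q := by
    intro h
    refine hQ.ne_top (top_le_iff.1 ?_)
    rw [← htop]
    exact sup_le Ideal.mul_le_right h
  have hJ0 : J ≠ ⊥ := by
    rintro rfl
    exact hJP bot_le
  have hb0 : b ≠ 0 := by
    rintro rfl
    rw [Ideal.span_singleton_eq_bot.2 rfl] at hJ
    rcases mul_eq_zero.1 hJ.symm with h | h
    · exact hI'0 h
    · exact hJ0 h
  refine ⟨J, b, a, hJ0, hb0, ha0, ?_, hJP, hJQ⟩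
  rw [hJ, hI']
  ring

/-- the numerator and the denominator of a quotient which is a unit at `P` -/
theorem unit_at {P Q : Ideal R} (hP : P.IsMaximal) (hQ : Q.IsMaximal) (hP0 : P ≠ ⊥) (hPQ : P ≠ Q) {x : R}
    (hx : P * Q = Ideal.span {x}) (hx0 : x ≠ 0) {a b : R} (ha : a ≠ 0) (hb : b ≠ 0) {I J : Ideal R}
    (h : Ideal.span {a} * I = Ideal.span {b} * J) (hI : ¬ I ≤ P) (hJ : ¬ J ≤ P) :
    ∃ a' b' : R, a' ∉ P ∧ b' ∉ P ∧ Ideal.span {a'} * I = Ideal.span {b'} * J := by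
  have hPp : Prime P := Ideal.prime_of_isPrime hP0 hP.isPrime
  have hsa : Ideal.span {a} ≠ (0 : Ideal R) := by
    rw [Ideal.zero_eq_bot, Ne, Ideal.span_singleton_eq_bot]
    exact ha
  have hsb : Ideal.span {b} ≠ (0 : Ideal R) := by
    rw [Ideal.zero_eq_bot, Ne, Ideal.span_singleton_eq_bot]
    exact hb
  obtain ⟨m, A, hA, ha1⟩ := WfDvdMonoid.max_power_factor hsa hPp.irreducible
  obtain ⟨n, B, hB, hb1⟩ := WfDvdMonoid.max_power_factor hsb hPp.irreducible
  have hI' : ¬ P ∣ I := fun h' => hI (Ideal.dvd_iff_le.1 h')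
  have hJ' : ¬ P ∣ J := fun h' => hJ (Ideal.dvd_iff_le.1 h')
  have hAI : ¬ P ∣ A * I := fun h' => (hPp.dvd_or_dvd h').elim hA hI'
  have hBJ : ¬ P ∣ B * J := fun h' => (hPp.dvd_or_dvd h').elim hB hJ'
  have hmn : m = n := by
    rw [ha1, hb1, mul_assoc, mul_assoc] at h
    rcases lt_trichotomy m n with h1 | h1 | h1
    · exfalso
      obtain ⟨k, rfl⟩ : ∃ k, n = m + (k + 1) := ⟨n - m - 1, by omega⟩
      rw [pow_add, mul_assoc] at h
      have h2 := mul_left_cancel₀ (pow_ne_zero m hPp.ne_zero) h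
      refine hAI ?_
      rw [h2, pow_succ', mul_assoc]
      exact dvd_mul_right _ _
    · exact h1
    · exfalso
      obtain ⟨k, rfl⟩ : ∃ k, m = n + (k + 1) := ⟨m - n - 1, by omega⟩
      rw [pow_add, mul_assoc] at h
      have h2 := mul_left_cancel₀ (pow_ne_zero n hPp.ne_zero) h
      refine hBJ ?_
      rw [← h2, pow_succ', mul_assoc]
      exact dvd_mul_right _ _
  subst hmn
  have hQm : ¬ Q ^ m ≤ P := by
    intro h1
    have h2 : Q ≤ P := hP.isPrime.le_of_pow_le h1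
    exact hPQ (hQ.eq_of_le hP.ne_top h2).symm
  obtain ⟨z, hz, hzP⟩ := Set.not_subset.1 hQm
  obtain ⟨Z, hZ⟩ := Ideal.dvd_iff_le.2 ((Ideal.span_singleton_le_iff_mem (I := Q ^ m)).2 hz)
  have hZP : ¬ P ∣ Z := by
    intro h1
    refine hzP ?_
    have h2 : Ideal.span {z} ≤ P := by
      rw [hZ]
      exact Ideal.mul_le_right.trans (Ideal.dvd_iff_le.1 h1)
    exact h2 (Ideal.mem_span_singleton_self z)
  have hxm : P ^ m * Q ^ m = Ideal.span {x ^ m} := by
    rw [← mul_pow, hx, Ideal.span_singleton_pow]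
  have hxm0 : x ^ m ≠ 0 := pow_ne_zero m hx0
  have hsx : Ideal.span {x ^ m} ≠ (0 : Ideal R) := by
    rw [Ideal.zero_eq_bot, Ne, Ideal.span_singleton_eq_bot]
    exact hxm0
  have key : ∀ {c : R} {C : Ideal R}, Ideal.span {c} = P ^ m * C → ¬ P ∣ C → ∃ c' : R, c * z = x ^ m * c' ∧ c' ∉ P := by
    intro c C hc hC
    have h1 : Ideal.span {c * z} = Ideal.span {x ^ m} * (C * Z) := by
      rw [← Ideal.span_singleton_mul_span_singleton, hc, hZ, ← hxm]
      ring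
    have h2 : c * z ∈ Ideal.span {x ^ m} := by
      have h3 : Ideal.span {c * z} ≤ Ideal.span {x ^ m} := by
        rw [h1]
        exact Ideal.mul_le_left
      exact h3 (Ideal.mem_span_singleton_self _)
    obtain ⟨c', hc'⟩ := Ideal.mem_span_singleton.1 h2
    refine ⟨c', hc', fun h3 => ?_⟩
    have h4 : Ideal.span {c'} = C * Z := by
      rw [hc', ← Ideal.span_singleton_mul_span_singleton] at h1
      exact mul_left_cancel₀ hsx h1
    have h5 : P ∣ C * Z := by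
      rw [← h4, Ideal.dvd_iff_le, Ideal.span_singleton_le_iff_mem]
      exact h3
    exact (hPp.dvd_or_dvd h5).elim hC hZP
  obtain ⟨a', ha', haP⟩ := key ha1 hA
  obtain ⟨b', hb', hbP⟩ := key hb1 hB
  refine ⟨a', b', haP, hbP, ?_⟩
  have h1 : Ideal.span {x ^ m} * (Ideal.span {a'} * I) = Ideal.span {x ^ m} * (Ideal.span {b'} * J) := by
    rw [← mul_assoc, ← mul_assoc, Ideal.span_singleton_mul_span_singleton, Ideal.span_singleton_mul_span_singleton,
      ← ha', ← hb', ← Ideal.span_singleton_mul_span_singleton, ← Ideal.span_singleton_mul_span_singleton,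
      mul_right_comm, h, mul_right_comm]
  exact mul_left_cancel₀ hsx h1

end

theorem mv (hDED : S_DED) (hNMM : S_NMM) (hNMP : S_NMP) : S_MV := by
  intro p _ _ L _ _ D hD
  have hdd : IsDedekindDomain (BR p D) := (hDED p L D hD).1
  obtain ⟨n1, n2, n3, n4, n5, n6, n7, n8, n9, n10, n11, n12, n13⟩ := hNMM p L D hD
  refine ⟨fun I hI => ?_, fun I J hI hJ hIJ hnI hnJ => ?_⟩
  · obtain ⟨J, a, b, hJ, ha, hb, h, h1, h2⟩ := move n5 n6 n7 n8 hI
    exact ⟨J, hJ, ⟨a, b, ha, hb, h⟩, h1, h2⟩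
  · obtain ⟨a, b, ha, hb, h⟩ := hIJ
    have hI1 : ¬ I ≤ t1 p D := fun h' => hnI ((n3 I hI).2 h')
    have hJ1 : ¬ J ≤ t1 p D := fun h' => hnJ ((n3 J hJ).2 h')
    have hx0 : xx p D ≠ 0 := by
      intro h0
      rw [h0, Ideal.span_singleton_eq_bot.2 rfl] at n10
      rcases mul_eq_zero.1 n10 with h' | h'
      · exact n7 h'
      · exact n8 h'
    obtain ⟨a', b', ha', hb', h'⟩ := unit_at n5 n6 n7 n9 n10 hx0 ha hb h hI1 hJ1
    have hev : ∀ c : BR p D, c ∉ t1 p D → ev p D 0 0 (pt1 p D) c ≠ 0 := by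
      intro c hc h0
      refine hc ?_
      rw [n12]
      exact h0
    have hne : ∀ c : BR p D, c ∉ t1 p D → Ideal.span {c} ≠ (⊥ : Ideal (BR p D)) := by
      intro c hc h0
      rw [Ideal.span_singleton_eq_bot] at h0
      refine hc ?_
      rw [h0]
      exact Ideal.zero_mem _
    obtain ⟨s1, hs1, e1⟩ := hNMP p L D hD a' (hev a' ha')
    obtain ⟨s2, hs2, e2⟩ := hNMP p L D hD b' (hev b' hb')
    have h1 := congrArg (nm p D) h'
    rw [n1 _ _ (hne a' ha') hI, n1 _ _ (hne b' hb') hJ, e1, e2] at h1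
    refine ⟨s2 / s1, div_ne_zero hs2 hs1, ?_⟩
    rw [div_pow]
    field_simp
    linear_combination h1

end Pool.Agent.Q123.CJ
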